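import Pool.Agent.Run7.h932.RG.Stm

set_option autoImplicit false

/-!
# Project RG (MP_ef9bc2_co): piece ROW
-/

namespace Pool.Agent.Run7.h862.RG

open Finset Run7.h932.RG

lemma exp_quad_neg {u : ℝ} (hu : u ≤ 0) : Real.exp u - 1 - u ≤ u ^ 2 / 2 := by
  have h1 := Real.quadratic_le_exp_of_nonneg (show 0 ≤ -u by linarith)
  have h2 : 0 < 1 + -u + (-u) ^ 2 / 2 := by nlinarith [sq_nonneg u]
  have h3 : Real.exp u = 1 / Real.exp (-u) := by rw [Real.exp_neg]; simp
  have h4 : Real.exp u ≤ 1 / (1 + -u + (-u) ^ 2 / 2) := by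
    rw [h3]
    exact one_div_le_one_div_of_le h2 h1
  have h5 : 1 / (1 + -u + (-u) ^ 2 / 2) ≤ 1 + u + u ^ 2 / 2 := by
    rw [div_le_iff₀ h2]
    nlinarith [sq_nonneg (u ^ 2)]
  linarith

lemma exp_quad_pos {u : ℝ} (hu : 0 ≤ u) : Real.exp u - 1 - u ≤ u ^ 2 / 2 * Real.exp u := by
  have hmono : MonotoneOn (fun u : ℝ => (1 + u) * Real.exp (-u) + u ^ 2 / 2) (Set.Ici 0) := by
    have hd : ∀ x : ℝ, HasDerivAt (fun u : ℝ => (1 + u) * Real.exp (-u) + u ^ 2 / 2)
        (x * (1 - Real.exp (-x))) x := by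
      intro x
      have h1 : HasDerivAt (fun u : ℝ => 1 + u) 1 x := (hasDerivAt_id x).const_add 1
      have h2 : HasDerivAt (fun u : ℝ => Real.exp (-u)) (Real.exp (-x) * -1) x :=
        (hasDerivAt_neg x).exp
      have h3 : HasDerivAt (fun u : ℝ => u ^ 2 / 2) (x) x := by
        have := (hasDerivAt_pow 2 x).div_const 2
        simpa using this
      refine ((h1.mul h2).add h3).congr_deriv ?_
      ring
    refine monotoneOn_of_deriv_nonneg (convex_Ici 0) ?_ ?_ ?_
    · exact fun x _ => (hd x).continuousAt.continuousWithinAt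
    · exact fun x _ => (hd x).differentiableAt.differentiableWithinAt
    · intro x hx
      rw [interior_Ici, Set.mem_Ioi] at hx
      rw [(hd x).deriv]
      have : Real.exp (-x) ≤ 1 := by rw [Real.exp_le_one_iff]; linarith
      exact mul_nonneg hx.le (by linarith)
  have h := hmono (Set.mem_Ici.2 le_rfl) (Set.mem_Ici.2 hu) hu
  simp only [add_zero, neg_zero, Real.exp_zero, mul_one] at h
  norm_num at h
  have hE := Real.exp_pos u
  have h1 : Real.exp (-u) * Real.exp u = 1 := by rw [← Real.exp_add, neg_add_cancel, Real.exp_zero]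
  nlinarith [mul_le_mul_of_nonneg_right h hE.le]

lemma log_sqrt_le {l b : ℝ} (hb : 0 < b) (hl : 8 ≤ l) (hbl : b ≤ 2 * l - 2) :
    Real.log b + √b ≤ l := by
  set s := √b with hs
  have hs0 : 0 < s := Real.sqrt_pos.2 hb
  have hs2 : s ^ 2 = b := Real.sq_sqrt hb.le
  have h1 : Real.log b = 2 * Real.log s := by rw [← hs2, Real.log_pow]; push_cast; ring
  have h2 : Real.log s ≤ s / 2 + Real.log 2 - 1 := by
    have := Real.log_le_sub_one_of_pos (show 0 < s / 2 by positivity)
    rw [Real.log_div hs0.ne' (by norm_num)] at this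
    linarith
  have h3 := Real.log_two_lt_d9
  rcases le_total s 4 with h | h
  · linarith
  · nlinarith

lemma point {k : ℕ} (hk : 3000 ≤ k) {b δ : ℝ} (hb : 0 ≤ b) (hb2 : b ≤ 2 * Real.log k - 2) (_hδ1 : δ ≤ 1) :
    1 / (k : ℝ) * (Real.exp (b * δ) - 1 - b * δ) ≤ Real.exp (b * δ ^ 2 / 2) - 1 := by
  have hk' : (3000 : ℝ) ≤ k := by exact_mod_cast hk
  have hk0 : (0 : ℝ) < k := by linarith
  have hl8 : 8 ≤ Real.log k := by
    rw [Real.le_log_iff_exp_le hk0]
    have h1 := Real.exp_one_lt_d9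
    have h2 : Real.exp 8 = Real.exp 1 ^ 8 := by rw [← Real.exp_nat_mul]; norm_num
    rw [h2]
    calc Real.exp 1 ^ 8 ≤ 2.7182818286 ^ 8 := pow_le_pow_left₀ (Real.exp_pos _).le h1.le 8
      _ ≤ 3000 := by norm_num
      _ ≤ k := hk'
  have hbk : b ≤ k := by
    have := Real.log_le_sub_one_of_pos hk0
    have h1 : Real.log k ≤ k / 2 := by
      have h2 := Real.log_le_sub_one_of_pos (show (0 : ℝ) < k / 2 by positivity)
      rw [Real.log_div hk0.ne' (by norm_num)] at h2
      have h3 := Real.log_two_lt_d9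
      linarith
    linarith
  have hq : b * δ ^ 2 / 2 ≤ Real.exp (b * δ ^ 2 / 2) - 1 := by
    have := Real.add_one_le_exp (b * δ ^ 2 / 2)
    linarith
  rcases hb.eq_or_lt with hb0 | hb0
  · rw [← hb0]; simp
  rcases le_total (b * δ) 0 with hu | hu
  · refine le_trans ?_ hq
    have h1 := exp_quad_neg hu
    calc 1 / (k : ℝ) * (Real.exp (b * δ) - 1 - b * δ) ≤ 1 / k * ((b * δ) ^ 2 / 2) :=
          mul_le_mul_of_nonneg_left h1 (by positivity)
      _ = b / k * (b * δ ^ 2 / 2) := by field_simp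
      _ ≤ 1 * (b * δ ^ 2 / 2) := by
          refine mul_le_mul_of_nonneg_right ?_ (by positivity)
          rw [div_le_one hk0]; exact hbk
      _ = b * δ ^ 2 / 2 := one_mul _
  rcases le_total (b * δ) (Real.log k - Real.log b) with hc | hc
  · refine le_trans ?_ hq
    have h1 := exp_quad_pos hu
    have h2 : Real.exp (b * δ) ≤ k / b := by
      rw [← Real.exp_log (show 0 < (k : ℝ) / b by positivity), Real.exp_le_exp,
        Real.log_div hk0.ne' hb0.ne']
      exact hc
    calc 1 / (k : ℝ) * (Real.exp (b * δ) - 1 - b * δ) ≤ 1 / k * ((b * δ) ^ 2 / 2 * Real.exp (b * δ)) :=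
          mul_le_mul_of_nonneg_left h1 (by positivity)
      _ ≤ 1 / k * ((b * δ) ^ 2 / 2 * (k / b)) :=
          mul_le_mul_of_nonneg_left (mul_le_mul_of_nonneg_left h2 (by positivity)) (by positivity)
      _ = b * δ ^ 2 / 2 := by field_simp
  · have hs := log_sqrt_le hb0 hl8 hb2
    have h1 : √b ≤ b * δ := by linarith
    have h2 : b ≤ (b * δ) ^ 2 := by
      calc b = √b ^ 2 := (Real.sq_sqrt hb).symm
        _ ≤ (b * δ) ^ 2 := pow_le_pow_left₀ (Real.sqrt_nonneg _) h1 2
    have h3 : 1 / 2 ≤ b * δ ^ 2 / 2 := by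
      have : b * 1 ≤ b * (b * δ ^ 2) := by nlinarith
      have := le_of_mul_le_mul_left this hb0
      linarith
    have h4 : 1.625 ≤ Real.exp (b * δ ^ 2 / 2) := by
      have h5 := Real.quadratic_le_exp_of_nonneg (show (0 : ℝ) ≤ 1 / 2 by norm_num)
      have h6 : Real.exp (1 / 2) ≤ Real.exp (b * δ ^ 2 / 2) := by rw [Real.exp_le_exp]; exact h3
      norm_num at h5 ⊢
      linarith
    have h5 : 2.7 * (Real.exp (b * δ) / k) ≤ Real.exp (b * δ ^ 2 / 2) := by
      have h6 : b * δ - Real.log k + 1 ≤ b * δ ^ 2 / 2 := by nlinarith [mul_nonneg hb (sq_nonneg (δ - 1))]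
      have h7 : Real.exp (b * δ - Real.log k + 1) = Real.exp (b * δ) / k * Real.exp 1 := by
        rw [Real.exp_add, Real.exp_sub, Real.exp_log hk0]
      have h8 := Real.exp_one_gt_d9
      have h9 : 0 < Real.exp (b * δ) / k := by positivity
      calc 2.7 * (Real.exp (b * δ) / k) ≤ Real.exp (b * δ) / k * Real.exp 1 := by nlinarith
        _ = Real.exp (b * δ - Real.log k + 1) := h7.symm
        _ ≤ Real.exp (b * δ ^ 2 / 2) := Real.exp_le_exp.2 h6
    set x := Real.exp (b * δ) / k with hx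
    have hx0 : 0 < x := by positivity
    have e1 : 1 / (k : ℝ) * (Real.exp (b * δ) - 1 - b * δ) = x - (1 + b * δ) / k := by
      rw [hx]; field_simp; ring
    have e2 : 0 ≤ (1 + b * δ) / k := by positivity
    rw [e1]
    rcases le_total x 0.6 with h | h
    · norm_num at h h4 ⊢
      linarith
    · norm_num at h h5 ⊢
      linarith

lemma one_add_sum_le_exp {ι : Type*} (s : Finset ι) (f : ι → ℝ) (hf : ∀ i ∈ s, 0 ≤ f i) :
    1 + ∑ i ∈ s, (Real.exp (f i) - 1) ≤ Real.exp (∑ i ∈ s, f i) := by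
  classical
  induction s using Finset.induction_on with
  | empty => simp
  | insert a s ha ih =>
    rw [sum_insert ha, sum_insert ha, Real.exp_add]
    have h1 := ih fun i hi => hf i (mem_insert_of_mem hi)
    have h2 : 1 ≤ Real.exp (f a) := Real.one_le_exp (hf a (mem_insert_self _ _))
    have h3 : 0 ≤ ∑ i ∈ s, (Real.exp (f i) - 1) := sum_nonneg fun i hi => by
      have := Real.one_le_exp (hf i (mem_insert_of_mem hi))
      linarith
    have h4 : 1 ≤ Real.exp (∑ i ∈ s, f i) := by linarith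
    nlinarith [mul_nonneg (sub_nonneg.2 h2) (sub_nonneg.2 h4)]

theorem t_ROW : S_ROW := by
  intro k b v hk hb hb2 hv0 hv1
  have hk' : (3000 : ℝ) ≤ k := by exact_mod_cast hk
  have hk0 : (0 : ℝ) < k := by linarith
  have hvle : ∀ j, v j ≤ 1 := by
    intro j
    rw [← hv1]
    exact single_le_sum (fun i _ => hv0 i) (mem_univ j)
  set δ : Fin k → ℝ := fun j => v j - 1 / k with hδ
  have hsum0 : ∑ j, δ j = 0 := by
    simp only [hδ, sum_sub_distrib, hv1, sum_const, card_univ, Fintype.card_fin, nsmul_eq_mul]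
    field_simp
    ring
  have hδ1 : ∀ j, δ j ≤ 1 := by
    intro j
    have : 0 < 1 / (k : ℝ) := by positivity
    simp only [hδ]
    linarith [hvle j]
  have hsq : ∑ j, v j ^ 2 = 1 / k + ∑ j, δ j ^ 2 := by
    have : ∑ j, v j ^ 2 = ∑ j, (δ j ^ 2 + 2 / k * δ j + 1 / k ^ 2) := by
      refine sum_congr rfl fun j _ => ?_
      simp only [hδ]
      field_simp
      ring
    rw [this, sum_add_distrib, sum_add_distrib, ← mul_sum, hsum0, sum_const, card_univ, Fintype.card_fin,
      nsmul_eq_mul]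
    field_simp
    ring
  have key : 1 / (k : ℝ) * ∑ j, Real.exp (b * δ j) ≤ Real.exp (b / 2 * ∑ j, δ j ^ 2) := by
    have e1 : 1 / (k : ℝ) * ∑ j, Real.exp (b * δ j) =
        1 + ∑ j, 1 / (k : ℝ) * (Real.exp (b * δ j) - 1 - b * δ j) := by
      rw [← mul_sum, sum_sub_distrib, sum_sub_distrib, ← mul_sum, hsum0, sum_const, card_univ,
        Fintype.card_fin, nsmul_eq_mul]
      field_simp
      ring
    rw [e1]
    calc 1 + ∑ j, 1 / (k : ℝ) * (Real.exp (b * δ j) - 1 - b * δ j)
        ≤ 1 + ∑ j, (Real.exp (b * δ j ^ 2 / 2) - 1) := by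
          have := sum_le_sum fun j (_ : j ∈ (univ : Finset (Fin k))) => point hk hb hb2 (hδ1 j)
          linarith
      _ ≤ Real.exp (∑ j, b * δ j ^ 2 / 2) := one_add_sum_le_exp _ _ fun j _ => by positivity
      _ = Real.exp (b / 2 * ∑ j, δ j ^ 2) := by
          rw [mul_sum]
          congr 1
          refine sum_congr rfl fun j _ => ?_
          ring
  have e2 : ∑ j, Real.exp (b * v j) = Real.exp (b / k) * ∑ j, Real.exp (b * δ j) := by
    rw [mul_sum]
    refine sum_congr rfl fun j _ => ?_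
    rw [← Real.exp_add]
    congr 1
    simp only [hδ]
    ring
  have e3 : b / (2 * k) + b / 2 * ∑ j, v j ^ 2 = b / k + b / 2 * ∑ j, δ j ^ 2 := by
    rw [hsq]
    field_simp
    ring
  rw [e2, e3, Real.exp_add]
  calc Real.exp (b / k) * ∑ j, Real.exp (b * δ j)
      = k * (Real.exp (b / k) * (1 / (k : ℝ) * ∑ j, Real.exp (b * δ j))) := by field_simp
    _ ≤ k * (Real.exp (b / k) * Real.exp (b / 2 * ∑ j, δ j ^ 2)) :=
        mul_le_mul_of_nonneg_left (mul_le_mul_of_nonneg_left key (Real.exp_pos _).le) hk0.le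

end Pool.Agent.Run7.h862.RG
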