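import Pool.Agent.Run7.h932.RG.Stm

set_option autoImplicit false

/-!
# Project RG (MP_ef9bc2_co): piece TR
-/

namespace Pool.Agent.Run7.h862.RG

open Finset Run7.h932.RG Classical

lemma gr_adj {n : ℕ} (ω : Fin n → Fin n → Bool) (x y : Fin n) :
    (gr ω).Adj x y ↔ (x < y ∧ ω y x = true) ∨ (y < x ∧ ω x y = true) := by
  unfold gr
  rw [SimpleGraph.fromRel_adj]
  constructor
  · rintro ⟨-, h⟩; exact h
  · intro h
    refine ⟨?_, h⟩
    rintro rfl
    rcases h with h | h <;> exact lt_irrefl _ h.1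

lemma gr_adj_lt {n : ℕ} (ω : Fin n → Fin n → Bool) {x y : Fin n} (h : x < y) :
    (gr ω).Adj x y ↔ ω y x = true := by
  rw [gr_adj]
  constructor
  · rintro (h1 | h1)
    · exact h1.2
    · exact absurd h1.1 (not_lt.2 h.le)
  · intro h1; exact Or.inl ⟨h, h1⟩

/-- Proper colourings as colourings of the graph. -/
noncomputable def colEquiv {n : ℕ} (k : ℕ) (ω : Fin n → Fin n → Bool) :
    {σ : Fin n → Fin k // Prp ω σ} ≃ (gr ω).Coloring (Fin k) where
  toFun σ := SimpleGraph.Coloring.mk σ.1 (by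
    intro x y h
    rw [gr_adj] at h
    rcases h with h | h
    · exact σ.2 x y h.1 h.2
    · exact (σ.2 y x h.1 h.2).symm)
  invFun c := ⟨fun x => c x, fun x y h1 h2 => c.valid ((gr_adj_lt ω h1).2 h2)⟩
  left_inv σ := rfl
  right_inv c := by
    ext x
    rfl

lemma tr1 {n : ℕ} (k : ℕ) (ω : Fin n → Fin n → Bool) :
    (cols k ω).card = Nat.card ((gr ω).Coloring (Fin k)) := by
  rw [← Nat.card_congr (colEquiv k ω), Nat.card_eq_fintype_card, Fintype.card_subtype]
  rfl

lemma tr2 {n : ℕ} (ω : Fin n → Fin n → Bool) : ms ω = Nat.card (gr ω).edgeSet := by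
  unfold ms
  rw [Nat.card_eq_fintype_card, Fintype.card_subtype]
  refine Finset.card_bij (fun z _ => s(z.1, z.2)) ?_ ?_ ?_
  · intro z hz
    rw [mem_filter] at hz ⊢
    refine ⟨mem_univ _, ?_⟩
    rw [SimpleGraph.mem_edgeSet, gr_adj_lt ω hz.2.1]
    exact hz.2.2
  · intro z hz z' hz' h
    rw [mem_filter] at hz hz'
    rw [Sym2.eq_iff] at h
    rcases h with h | h
    · exact Prod.ext h.1 h.2
    · exfalso
      have h1 := hz.2.1
      have h2 := hz'.2.1
      rw [h.1, h.2] at h1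
      exact lt_asymm h1 h2
  · intro e he
    rw [mem_filter] at he
    have he2 := he.2
    induction e using Sym2.ind with
    | _ x y =>
      rw [SimpleGraph.mem_edgeSet, gr_adj] at he2
      rcases he2 with h | h
      · exact ⟨(x, y), mem_filter.2 ⟨mem_univ _, h⟩, rfl⟩
      · exact ⟨(y, x), mem_filter.2 ⟨mem_univ _, h⟩, Sym2.eq_swap⟩

lemma gr_eq_iff {n : ℕ} (ω : Fin n → Fin n → Bool) (G : SimpleGraph (Fin n)) :
    gr ω = G ↔ ∀ y x : Fin n, x < y → (ω y x = true ↔ G.Adj x y) := by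
  constructor
  · rintro rfl y x h
    exact (gr_adj_lt ω h).symm
  · intro h
    ext x y
    rw [gr_adj]
    constructor
    · rintro (h1 | h1)
      · exact (h y x h1.1).1 h1.2
      · exact ((h x y h1.1).1 h1.2).symm
    · intro h1
      rcases lt_or_gt_of_ne h1.ne with h2 | h2
      · exact Or.inl ⟨h2, (h y x h2).2 h1⟩
      · exact Or.inr ⟨h2, (h x y h2).2 h1.symm⟩

lemma prod_ite_and {n : ℕ} (Q : Fin n → Fin n → Prop) [∀ y x, Decidable (Q y x)]
    [Decidable (∀ y x, Q y x)] :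
    (∏ y, ∏ x, if Q y x then (1 : ℝ) else 0) = if ∀ y x, Q y x then 1 else 0 := by
  split_ifs with h
  · refine prod_eq_one fun y _ => prod_eq_one fun x _ => ?_
    rw [if_pos (h y x)]
  · push Not at h
    obtain ⟨y, x, hyx⟩ := h
    refine prod_eq_zero (mem_univ y) (prod_eq_zero (mem_univ x) ?_)
    rw [if_neg hyx]

lemma tr3 {n : ℕ} (p : Fin n → Fin n → ℝ) (G : SimpleGraph (Fin n)) :
    ∑ ω, mu p ω * (if gr ω = G then 1 else 0) = WG p G := by
  have e1 : ∀ ω : Fin n → Fin n → Bool, mu p ω * (if gr ω = G then 1 else 0) =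
      ∏ y, ∏ x, wt (p x y) (ω y x) * (if x < y → (ω y x = true ↔ G.Adj x y) then 1 else 0) := by
    intro ω
    have : (if gr ω = G then (1 : ℝ) else 0) =
        ∏ y, ∏ x, (if x < y → (ω y x = true ↔ G.Adj x y) then (1 : ℝ) else 0) := by
      rw [prod_ite_and fun y x : Fin n => x < y → (ω y x = true ↔ G.Adj x y)]
      by_cases h : gr ω = G
      · rw [if_pos h, if_pos ((gr_eq_iff ω G).1 h)]
      · rw [if_neg h, if_neg (fun h' => h ((gr_eq_iff ω G).2 h'))]
    rw [this]
    unfold mu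
    rw [← prod_mul_distrib]
    refine prod_congr rfl fun y _ => ?_
    rw [← prod_mul_distrib]
  simp only [e1]
  have e2 := (Finset.prod_univ_sum (fun _ : Fin n => (univ : Finset (Fin n → Bool)))
    (fun (y : Fin n) (row : Fin n → Bool) => ∏ x, wt (p x y) (row x) *
      (if x < y → (row x = true ↔ G.Adj x y) then (1 : ℝ) else 0)))
  rw [Fintype.piFinset_univ] at e2
  rw [← e2]
  unfold WG
  refine prod_congr rfl fun y _ => ?_
  have e3 := (Finset.prod_univ_sum (fun _ : Fin n => (univ : Finset Bool))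
    (fun (x : Fin n) (b : Bool) => wt (p x y) b *
      (if x < y → (b = true ↔ G.Adj x y) then (1 : ℝ) else 0)))
  rw [Fintype.piFinset_univ] at e3
  rw [← e3]
  refine prod_congr rfl fun x _ => ?_
  rw [Fintype.sum_bool]
  unfold wt
  by_cases h1 : x < y
  · by_cases h2 : G.Adj x y
    · simp [h1, h2]
    · simp [h1, h2]
  · simp [h1]

theorem t_TR : S_TR := by
  intro n
  refine ⟨fun k ω => tr1 k ω, fun ω => tr2 ω, fun p f => ?_⟩
  have e1 : ∀ ω : Fin n → Fin n → Bool, mu p ω * f (gr ω) =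
      ∑ G, mu p ω * (if gr ω = G then 1 else 0) * f G := by
    intro ω
    rw [Finset.sum_eq_single (gr ω)]
    · simp
    · intro G _ hG
      rw [if_neg (fun h => hG h.symm)]
      ring
    · intro h
      exact absurd (mem_univ _) h
  simp only [e1]
  rw [sum_comm]
  refine sum_congr rfl fun G _ => ?_
  rw [← sum_mul, tr3]

end Pool.Agent.Run7.h862.RG
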